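import Pool.Agent.TH925.CQ.Time
import Pool.Agent.TH925.OS.Final

/-!
# `NP = ∃ℝ` and the convexity of quartic forms

`ConvexForm` : is the quartic form given by a list of terms `c z_i z_j z_k z_l` with integer
coefficients a convex function?  A quartic form is convex if and only if it is quasiconvex
(`QuasiconvexForm`), and if and only if it is pseudoconvex (`PseudoconvexForm`).

The problem is `∀ℝ`-complete; it is in `coNP` if and only if `NP = ∃ℝ`.

Proof of hardness: testing an upper bound `σ` for the spectral norm of a tensor is `∀ℝ`-complete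
(helper662), that is the nonnegativity of biquadratic forms `B(x, y) = σ² |x|² |y|² - ∑ β_k(x, y)²`
with bilinear forms `β_k`.  The quartic form `B(x, y) + K (|x|⁴ + |y|⁴)` is convex if and only if
`B` is nonnegative, where `K - σ²` is the sum of the squares of the sums of the absolute values of
the coefficients of the `β_k`: its second derivative at `(x, y)` in the direction `(u, v)` is
`2 B(x, v) + 2 B(u, y)` plus terms which are controlled by `4 K (|x|² |u|² + |y|² |v|²)`, and equal
to `2 B(x, v)` at the point `(x, 0)` in the direction `(0, v)`.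
-/

namespace Pool.Agent.Results.MP_47b99f_lc.ConvexQuartics

open Pool.Agent.NPC Pool.Agent.NPC.ER Pool.Agent.NPC.TH925OS Pool.Agent.TH925.CQ

theorem result :
    ARComplete (lang ConvexForm) ∧
      (∀ L : List Mon, (QuasiconvexForm L ↔ ConvexForm L) ∧ (PseudoconvexForm L ↔ ConvexForm L)) ∧
      ((∀ A : Set (List Bool), InNP A ↔ InER A) ↔ InNP (lang ConvexForm)ᶜ) :=
  ⟨Pool.Agent.NPC.TH925CQ.complete, fun L => ⟨quasi_iff L, pseudo_iff L⟩,
    np_eq_iff (arComplete_iff.1 Pool.Agent.NPC.TH925CQ.complete)⟩

end Pool.Agent.Results.MP_47b99f_lc.ConvexQuartics
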