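import Pool.Agent.TH925.HC.Time
import Pool.Agent.TH925.OS.Final

/-!
# `NP = ∃ℝ` and hyperbolic and stable cubic forms

* `Hyperbolic` : is the cubic form `p` with integer coefficients hyperbolic with respect to the
  integer vector `e`, that is `p(e) ≠ 0` and for all real `x` all roots `s` of `p(x + s e)` are
  real?
* `Stable` : is `p` stable, that is `p(z) ≠ 0` for all complex `z` all of whose coordinates have
  positive imaginary parts?

Both problems are `∀ℝ`-complete; each of them is in `coNP` if and only if `NP = ∃ℝ`.

Proof of hardness: testing an upper bound `σ` for the spectral norm of a tensor is `∀ℝ`-complete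
(helper662), that is the nonnegativity of `s |x|² |y|² - ∑ β_k(x, y)²`, `s = σ²`. Let
`p(t, x, y, w) = t³ - s t (|x|² + |y|² + |w|²) + 2 s ∑ w_k β_k(x, y)`. By the discriminant of the
cubic polynomial, `p` is hyperbolic with respect to the vector of `t` if and only if
`27 (∑ w_k β_k(x, y))² ≤ s (|x|² + |y|² + |w|²)³`, which is equivalent by the inequality of
arithmetic and geometric means. With `t = z_0 + 2 σ ∑ z_j` the hyperbolicity cone contains the
positive orthant, and by Gårding's theorem (proved here for cubic forms) the form is stable if and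
only if it is hyperbolic.
-/

namespace Pool.Agent.Results.MP_47b99f_lc.HyperbolicCubics

open Pool.Agent.NPC Pool.Agent.NPC.ER Pool.Agent.NPC.TH925OS Pool.Agent.TH925.HC

theorem result :
    ARComplete (lang Hyperbolic) ∧ ARComplete (lang Stable) ∧
      List.TFAE [∀ A : Set (List Bool), InNP A ↔ InER A, InNP (lang Hyperbolic)ᶜ,
        InNP (lang Stable)ᶜ] := by
  have h1 := Pool.Agent.NPC.TH925HC.completeH
  have h2 := Pool.Agent.NPC.TH925HC.completeS
  refine ⟨h1, h2, ?_⟩
  tfae_have 1 ↔ 2 := np_eq_iff (arComplete_iff.1 h1)
  tfae_have 1 ↔ 3 := np_eq_iff (arComplete_iff.1 h2)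
  tfae_finish

end Pool.Agent.Results.MP_47b99f_lc.HyperbolicCubics
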