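import Pool.Agent.TH925.OS.Final

/-!
# `NP = ∃ℝ` and the zero-nonzero patterns of orthogonal matrices

* `OrthSupport` : is a given `n × n` zero-nonzero pattern the pattern of the nonzero entries of a
  real orthogonal matrix?
* `TwoEigenvalues` : is `q(G) = 2` for a given finite simple graph `G`, where `q(G)` is the least
  number of distinct eigenvalues of a real symmetric matrix whose nonzero entries outside the
  diagonal are exactly those at the edges of `G`?

Both problems are `∃ℝ`-complete; each of them is in `NP` if and only if `NP = ∃ℝ`.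
-/

namespace Pool.Agent.Results.MP_47b99f_lc.OrthogonalSupports

open Pool.Agent.NPC Pool.Agent.NPC.ER Pool.Agent.NPC.TH925OS Pool.Agent.TH925.OS

theorem result :
    ERComplete OrthSupport ∧ ERComplete TwoEigenvalues ∧
      List.TFAE [∀ A : Set (List Bool), InNP A ↔ InER A, InNP OrthSupport,
        InNP TwoEigenvalues] := by
  have h1 : ERComplete OrthSupport := ⟨mem_S, hard_S⟩
  have h2 : ERComplete TwoEigenvalues := ⟨mem_T, hard_T⟩
  refine ⟨h1, h2, ?_⟩
  tfae_have 1 ↔ 2 := np_eq_iff h1
  tfae_have 1 ↔ 3 := np_eq_iff h2
  tfae_finish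

end Pool.Agent.Results.MP_47b99f_lc.OrthogonalSupports
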