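import Pool.Agent.TH925.PM.Time
import Pool.Agent.TH925.OS.Final

/-!
# `NP = ∃ℝ` and positive linear maps between matrices

`PositiveMap` : does the linear map `Φ` on the complex `n × n` matrices (given by `n` in unary and
by its coefficients, which are Gaussian integers) map positive semidefinite matrices to positive
semidefinite matrices?

This problem is `∀ℝ`-complete; it is in `coNP` if and only if `NP = ∃ℝ`. The map is positive if and
only if the sesquilinear form `sesq` (given by the Choi matrix of `Φ`) is nonnegative at the
product vectors `x ⊗ y`.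

Proof of hardness: testing an upper bound for the spectral norm of a real tensor is `∀ℝ`-complete
(helper662), that is the nonnegativity of a biquadratic form
`B(x, y) = s |x|² |y|² - ∑ β_k(x, y)²`. For complex `x`, `y` consider the form
`2 s |x|² |y|² - ∑ |β_k(x, y)|² - ∑ |β_k(x, conj y)|²`. Its value at `x = a + i b`, `y = c + i d` is
`2 (B(a, c) + B(a, d) + B(b, c) + B(b, d))`.
-/

namespace Pool.Agent.Results.MP_47b99f_lc.PositiveMaps

open Pool.Agent.NPC Pool.Agent.NPC.ER Pool.Agent.NPC.TH925OS Pool.Agent.TH925.PM ComplexOrder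

theorem result :
    ARComplete (lang PositiveMap) ∧
      ((∀ A : Set (List Bool), InNP A ↔ InER A) ↔ InNP (lang PositiveMap)ᶜ) ∧
      ∀ q : Inst, PositiveMap q ↔ ∀ x y : ℕ → ℂ, 0 ≤ sesq q.1.length q.2 x y :=
  ⟨Pool.Agent.NPC.TH925PM.complete,
    np_eq_iff (arComplete_iff.1 Pool.Agent.NPC.TH925PM.complete), positiveMap_iff⟩

end Pool.Agent.Results.MP_47b99f_lc.PositiveMaps
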